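import Mathlib

/-!
# Equicontinuity does not propagate from the Hartogs figure to the polydisk

For every `n ≥ 1` and every `0 < r < 1` there is a family of holomorphic maps from the unit
polydisk of `ℂ^(n+1)` to the complex projective plane (a compact Kähler manifold) which is
equicontinuous on the Hartogs figure `H_n^1(r)` but not on the polydisk.
-/

set_option autoImplicit false

open Set Filter Topology

namespace Pool.Agent.Results.MP_7ec995_an.PlaneBubbling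

/-- The complex projective plane `ℙ²(ℂ)`. -/
abbrev P2 : Type := Projectivization ℂ (EuclideanSpace ℂ (Fin 3))

/-- The distance of the Fubini-Study metric on `ℙ²(ℂ)`:
`d([u],[v]) = arccos (|⟨u,v⟩| / (‖u‖ ‖v‖))`. -/
noncomputable def dFS (x y : P2) : ℝ :=
  Real.arccos (‖inner ℂ x.rep y.rep‖ / (‖x.rep‖ * ‖y.rep‖))

/-- The open polydisk `Δ^m(ρ)` centred at `0`. -/
def polydisk (m : ℕ) (ρ : ℝ) : Set (Fin m → ℂ) := {z | ∀ i, ‖z i‖ < ρ}

/-- The Hartogs figure `H_n^1(r) = [Δ^n(1-r) × Δ^1] ∪ [Δ^n × A^1(r,1)] ⊆ ℂ^n × ℂ = ℂ^(n+1)`. -/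
def hartogs (n : ℕ) (r : ℝ) : Set (Fin (n + 1) → ℂ) :=
  {z | ((∀ i : Fin n, ‖z i.castSucc‖ < 1 - r) ∧ ‖z (Fin.last n)‖ < 1) ∨
    ((∀ i : Fin n, ‖z i.castSucc‖ < 1) ∧ r < ‖z (Fin.last n)‖ ∧ ‖z (Fin.last n)‖ < 1)}

/-- `f` is a holomorphic map from `U ⊆ ℂ^m` to `ℙ²(ℂ)`: near every point of `U` it has homogeneous
coordinates which are holomorphic functions without common zero. -/
def HolomorphicOn {m : ℕ} (f : (Fin m → ℂ) → P2) (U : Set (Fin m → ℂ)) : Prop :=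
  ∀ p ∈ U, ∃ V : Set (Fin m → ℂ), IsOpen V ∧ p ∈ V ∧
    ∃ F : (Fin m → ℂ) → EuclideanSpace ℂ (Fin 3), DifferentiableOn ℂ F V ∧
      ∀ z ∈ V, ∃ h : F z ≠ 0, f z = Projectivization.mk ℂ (F z) h

/-- The family `𝓕` of maps to `ℙ²(ℂ)` is equicontinuous on `U`. -/
def EquicontinuousOnSet {m : ℕ} (𝓕 : Set ((Fin m → ℂ) → P2)) (U : Set (Fin m → ℂ)) : Prop :=
  ∀ p ∈ U, ∀ ε > 0, ∃ δ > 0, ∀ f ∈ 𝓕, ∀ z ∈ U, dist z p < δ → dFS (f z) (f p) < ε

lemma dFS_mk (u v : EuclideanSpace ℂ (Fin 3)) (hu : u ≠ 0) (hv : v ≠ 0) :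
    dFS (Projectivization.mk ℂ u hu) (Projectivization.mk ℂ v hv) =
      Real.arccos (‖inner ℂ u v‖ / (‖u‖ * ‖v‖)) := by
  obtain ⟨a, ha⟩ := Projectivization.exists_smul_eq_mk_rep ℂ u hu
  obtain ⟨b, hb⟩ := Projectivization.exists_smul_eq_mk_rep ℂ v hv
  unfold dFS
  rw [← ha, ← hb]
  have ha' : ‖(a : ℂ)‖ ≠ 0 := norm_ne_zero_iff.2 a.ne_zero
  have hb' : ‖(b : ℂ)‖ ≠ 0 := norm_ne_zero_iff.2 b.ne_zero
  have hu' : ‖u‖ ≠ 0 := norm_ne_zero_iff.2 hu
  have hv' : ‖v‖ ≠ 0 := norm_ne_zero_iff.2 hv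
  congr 1
  change ‖inner ℂ ((a : ℂ) • u) ((b : ℂ) • v)‖ / (‖(a : ℂ) • u‖ * ‖(b : ℂ) • v‖) = _
  rw [inner_smul_left, inner_smul_right, norm_smul, norm_smul, norm_mul, norm_mul,
    RCLike.norm_conj]
  field_simp

/-- homogeneous coordinates of the maps of the family -/
noncomputable def coords {n : ℕ} (i : Fin n) (a : ℂ) (k : ℕ) (z : Fin (n + 1) → ℂ) :
    EuclideanSpace ℂ (Fin 3) :=
  !₂[z i.castSucc - a, z (Fin.last n), ((1 / ((k : ℝ) + 1) : ℝ) : ℂ)]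

lemma coords_norm_sq {n : ℕ} (i : Fin n) (a : ℂ) (k : ℕ) (z : Fin (n + 1) → ℂ) :
    ‖coords i a k z‖ ^ 2 =
      ‖z i.castSucc - a‖ ^ 2 + ‖z (Fin.last n)‖ ^ 2 + (1 / ((k : ℝ) + 1)) ^ 2 := by
  rw [EuclideanSpace.norm_sq_eq]
  have h : ‖((1 / ((k : ℝ) + 1) : ℝ) : ℂ)‖ = 1 / ((k : ℝ) + 1) := by
    rw [Complex.norm_real, Real.norm_of_nonneg (by positivity)]
  simp only [coords, Fin.sum_univ_three]
  simp only [Matrix.cons_val_zero, Matrix.cons_val_one, Matrix.cons_val]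
  rw [h]

lemma coords_ne {n : ℕ} (i : Fin n) (a : ℂ) (k : ℕ) (z : Fin (n + 1) → ℂ) :
    coords i a k z ≠ 0 := by
  intro h
  have h1 := coords_norm_sq i a k z
  rw [h, norm_zero] at h1
  have h2 : (0 : ℝ) < (1 / ((k : ℝ) + 1)) ^ 2 := by positivity
  nlinarith [sq_nonneg ‖z i.castSucc - a‖, sq_nonneg ‖z (Fin.last n)‖]

/-- the family -/
noncomputable def fam {n : ℕ} (i : Fin n) (a : ℂ) (k : ℕ) (z : Fin (n + 1) → ℂ) : P2 :=
  Projectivization.mk ℂ (coords i a k z) (coords_ne i a k z)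

lemma coords_sub {n : ℕ} (i : Fin n) (a : ℂ) (k : ℕ) (z p : Fin (n + 1) → ℂ) :
    ‖coords i a k z - coords i a k p‖ ≤ 2 * dist z p := by
  have h0 : ‖coords i a k z - coords i a k p‖ ^ 2 =
      ‖z i.castSucc - p i.castSucc‖ ^ 2 + ‖z (Fin.last n) - p (Fin.last n)‖ ^ 2 := by
    rw [EuclideanSpace.norm_sq_eq]
    simp only [coords, Fin.sum_univ_three]
    simp
  have h1 : ‖z i.castSucc - p i.castSucc‖ ≤ dist z p := by
    rw [dist_eq_norm]
    exact norm_le_pi_norm (z - p) i.castSucc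
  have h2 : ‖z (Fin.last n) - p (Fin.last n)‖ ≤ dist z p := by
    rw [dist_eq_norm]
    exact norm_le_pi_norm (z - p) (Fin.last n)
  have h3 : 0 ≤ dist z p := dist_nonneg
  apply le_of_sq_le_sq _ (by positivity)
  rw [h0]
  nlinarith [norm_nonneg (z i.castSucc - p i.castSucc),
    norm_nonneg (z (Fin.last n) - p (Fin.last n)), sq_nonneg (dist z p)]

lemma holo {n : ℕ} (i : Fin n) (a : ℂ) (k : ℕ) (U : Set (Fin (n + 1) → ℂ)) :
    HolomorphicOn (fam i a k) U := by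
  intro p _
  refine ⟨univ, isOpen_univ, mem_univ _, coords i a k, ?_, fun z _ => ⟨coords_ne i a k z, rfl⟩⟩
  have : Differentiable ℂ (coords i a k) := by
    rw [differentiable_euclidean]
    intro j
    fin_cases j
    · change Differentiable ℂ fun z : Fin (n + 1) → ℂ => z i.castSucc - a
      fun_prop
    · change Differentiable ℂ fun z : Fin (n + 1) → ℂ => z (Fin.last n)
      fun_prop
    · change Differentiable ℂ fun z : Fin (n + 1) → ℂ => ((1 / ((k : ℝ) + 1) : ℝ) : ℂ)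
      fun_prop
  exact this.differentiableOn

/-- a lower bound of the cosine of the angle -/
lemma angle_bound {u v : EuclideanSpace ℂ (Fin 3)} {c s : ℝ} (hc : 0 < c) (hv : c ≤ ‖v‖)
    (hs : ‖u - v‖ ≤ s) (hsc : s < c) (hu0 : u ≠ 0) :
    (c - s) / (c + s) ≤ ‖inner ℂ u v‖ / (‖u‖ * ‖v‖) := by
  have hs0 : 0 ≤ s := (norm_nonneg _).trans hs
  have hvp : 0 < ‖v‖ := hc.trans_le hv
  have hup : 0 < ‖u‖ := norm_pos_iff.2 hu0
  have h1 : ‖v‖ ^ 2 - s * ‖v‖ ≤ ‖inner ℂ u v‖ := by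
    have e : inner ℂ u v = inner ℂ v v + inner ℂ (u - v) v := by
      rw [← inner_add_left]
      congr 1
      abel
    have e2 : ‖(inner ℂ v v : ℂ)‖ = ‖v‖ ^ 2 := by
      rw [inner_self_eq_norm_sq_to_K]
      simp
    have e3 : ‖(inner ℂ (u - v) v : ℂ)‖ ≤ s * ‖v‖ :=
      (norm_inner_le_norm _ _).trans (by gcongr)
    have e4 : ‖(inner ℂ v v : ℂ)‖ ≤ ‖(inner ℂ u v : ℂ)‖ + ‖(inner ℂ (u - v) v : ℂ)‖ := by
      have : (inner ℂ v v : ℂ) = inner ℂ u v - inner ℂ (u - v) v := by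
        rw [e]; ring
      rw [this]
      exact norm_sub_le _ _
    rw [e2] at e4
    linarith
  have h2 : ‖u‖ ≤ ‖v‖ + s := by
    calc ‖u‖ = ‖v + (u - v)‖ := by congr 1; abel
      _ ≤ ‖v‖ + ‖u - v‖ := norm_add_le _ _
      _ ≤ ‖v‖ + s := by gcongr
  rw [div_le_div_iff₀ (by positivity) (by positivity)]
  calc (c - s) * (‖u‖ * ‖v‖) ≤ (c - s) * ((‖v‖ + s) * ‖v‖) := by
        have : 0 ≤ c - s := by linarith
        gcongr
    _ ≤ (‖v‖ ^ 2 - s * ‖v‖) * (c + s) := by nlinarith [mul_nonneg hs0 hvp.le]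
    _ ≤ ‖inner ℂ u v‖ * (c + s) := by gcongr

lemma equi {n : ℕ} (i : Fin n) (a : ℂ) (U : Set (Fin (n + 1) → ℂ))
    (hU : ∀ p ∈ U, p i.castSucc ≠ a ∨ p (Fin.last n) ≠ 0) :
    EquicontinuousOnSet (range (fam i a)) U := by
  intro p hp ε hε
  set c : ℝ := max ‖p i.castSucc - a‖ ‖p (Fin.last n)‖ with hcdef
  have hc : 0 < c := by
    rcases hU p hp with h | h
    · exact lt_max_of_lt_left (norm_pos_iff.2 (sub_ne_zero.2 h))
    · exact lt_max_of_lt_right (norm_pos_iff.2 h)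
  have hcont : Tendsto (fun s : ℝ => Real.arccos ((c - s) / (c + s))) (𝓝 0) (𝓝 0) := by
    have h1 : ContinuousAt (fun s : ℝ => Real.arccos ((c - s) / (c + s))) 0 := by
      apply Real.continuous_arccos.continuousAt.comp
      apply ContinuousAt.div (by fun_prop) (by fun_prop)
      simpa using hc.ne'
    have h2 := h1.tendsto
    simpa [div_self hc.ne'] using h2
  have hev : ∀ᶠ s : ℝ in 𝓝 0, Real.arccos ((c - s) / (c + s)) < ε := hcont.eventually_lt_const hε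
  obtain ⟨η, hη, hη2⟩ := Metric.eventually_nhds_iff.1 hev
  refine ⟨min (η / 4) (c / 4), by positivity, ?_⟩
  rintro _ ⟨k, rfl⟩ z _ hz
  have hz1 : dist z p < η / 4 := hz.trans_le (min_le_left _ _)
  have hz2 : dist z p < c / 4 := hz.trans_le (min_le_right _ _)
  have hd0 : 0 ≤ dist z p := dist_nonneg
  set s : ℝ := 2 * dist z p with hs
  have hcv : c ≤ ‖coords i a k p‖ := by
    apply le_of_sq_le_sq _ (norm_nonneg _)
    rw [coords_norm_sq]
    have h3 : (0 : ℝ) ≤ (1 / ((k : ℝ) + 1)) ^ 2 := by positivity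
    rcases max_choice ‖p i.castSucc - a‖ ‖p (Fin.last n)‖ with h | h
    · rw [hcdef, h]
      nlinarith [sq_nonneg ‖p (Fin.last n)‖]
    · rw [hcdef, h]
      nlinarith [sq_nonneg ‖p i.castSucc - a‖]
  have hb := angle_bound hc hcv (coords_sub i a k z p) (by linarith) (coords_ne i a k z)
  have h1 : dFS (fam i a k z) (fam i a k p) ≤ Real.arccos ((c - s) / (c + s)) := by
    unfold fam
    rw [dFS_mk]
    exact Real.arccos_le_arccos hb
  refine h1.trans_lt (hη2 ?_)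
  rw [Real.dist_eq, sub_zero, abs_of_nonneg (by positivity)]
  linarith

lemma inner_aux (x y : ℂ) (κ : ℝ) :
    inner ℂ (!₂[x, 0, (κ : ℂ)] : EuclideanSpace ℂ (Fin 3)) !₂[y - y, 0, (κ : ℂ)] =
      ((κ ^ 2 : ℝ) : ℂ) := by
  rw [PiLp.inner_apply, Fin.sum_univ_three]
  simp only [sq, Matrix.cons_val_zero, Matrix.cons_val_one, Matrix.cons_val, RCLike.inner_apply]
  rw [Complex.conj_ofReal]
  simp

lemma not_equi {n : ℕ} (i : Fin n) {r : ℝ} (hr0 : 0 < r) (hr1 : r < 1) :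
    ¬ EquicontinuousOnSet (range (fam i ((1 - r : ℝ) : ℂ))) (polydisk (n + 1) 1) := by
  intro H
  have hne : (Fin.last n) ≠ i.castSucc := (Fin.castSucc_lt_last i).ne'
  set p : Fin (n + 1) → ℂ := Pi.single i.castSucc ((1 - r : ℝ) : ℂ) with hp
  have hpi : p i.castSucc = ((1 - r : ℝ) : ℂ) := by rw [hp]; simp
  have hpl : p (Fin.last n) = 0 := by rw [hp, Pi.single_eq_of_ne hne]
  have hpm : p ∈ polydisk (n + 1) 1 := by
    intro j
    by_cases hj : j = i.castSucc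
    · rw [hj, hpi, Complex.norm_real, Real.norm_of_nonneg (by linarith)]
      linarith
    · rw [hp, Pi.single_eq_of_ne hj, norm_zero]
      norm_num
  obtain ⟨δ, hδ, hH⟩ := H p hpm 1 one_pos
  set t : ℝ := min (δ / 2) (r / 2) with ht
  have ht0 : 0 < t := by positivity
  have ht1 : t ≤ δ / 2 := min_le_left _ _
  have ht2 : t ≤ r / 2 := min_le_right _ _
  set z : Fin (n + 1) → ℂ := Pi.single i.castSucc ((1 - r + t : ℝ) : ℂ) with hz
  have hzi : z i.castSucc = ((1 - r + t : ℝ) : ℂ) := by rw [hz]; simp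
  have hzl : z (Fin.last n) = 0 := by rw [hz, Pi.single_eq_of_ne hne]
  have hzm : z ∈ polydisk (n + 1) 1 := by
    intro j
    by_cases hj : j = i.castSucc
    · rw [hj, hzi, Complex.norm_real, Real.norm_of_nonneg (by linarith)]
      linarith
    · rw [hz, Pi.single_eq_of_ne hj, norm_zero]
      norm_num
  have hdist : dist z p < δ := by
    rw [dist_pi_lt_iff hδ]
    intro j
    by_cases hj : j = i.castSucc
    · rw [hj, hzi, hpi, dist_eq_norm, ← Complex.ofReal_sub, Complex.norm_real,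
        Real.norm_of_nonneg (by linarith)]
      linarith
    · rw [hz, hp, Pi.single_eq_of_ne hj, Pi.single_eq_of_ne hj, dist_self]
      exact hδ
  obtain ⟨k, hk⟩ := exists_nat_one_div_lt (half_pos ht0)
  have hlt := hH _ ⟨k, rfl⟩ z hzm hdist
  unfold fam at hlt
  rw [dFS_mk] at hlt
  set u := coords i ((1 - r : ℝ) : ℂ) k z with hu
  set v := coords i ((1 - r : ℝ) : ℂ) k p with hv
  have hκ : (0 : ℝ) < 1 / ((k : ℝ) + 1) := by positivity
  have hvn : ‖v‖ = 1 / ((k : ℝ) + 1) := by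
    have h1 := coords_norm_sq i ((1 - r : ℝ) : ℂ) k p
    rw [← hv, hpi, hpl, sub_self, norm_zero] at h1
    have h2 : ‖v‖ ^ 2 = (1 / ((k : ℝ) + 1)) ^ 2 := by rw [h1]; ring
    exact (sq_eq_sq₀ (norm_nonneg _) hκ.le).1 h2
  have hun : t ≤ ‖u‖ := by
    have h1 := coords_norm_sq i ((1 - r : ℝ) : ℂ) k z
    have h3 : ‖((1 - r + t : ℝ) : ℂ) - ((1 - r : ℝ) : ℂ)‖ = t := by
      rw [← Complex.ofReal_sub, Complex.norm_real, Real.norm_of_nonneg (by linarith)]
      ring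
    rw [← hu, hzi, hzl, h3, norm_zero] at h1
    apply le_of_sq_le_sq _ (norm_nonneg _)
    nlinarith
  have hin : ‖inner ℂ u v‖ = (1 / ((k : ℝ) + 1)) ^ 2 := by
    have e : inner ℂ u v = (((1 / ((k : ℝ) + 1)) ^ 2 : ℝ) : ℂ) := by
      rw [hu, hv]
      simp only [coords, hzi, hpi, hzl, hpl]
      exact inner_aux _ _ _
    rw [e, Complex.norm_real, Real.norm_of_nonneg (by positivity)]
  have hup : 0 < ‖u‖ := ht0.trans_le hun
  have hratio : ‖inner ℂ u v‖ / (‖u‖ * ‖v‖) ≤ 1 / 2 := by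
    rw [hin, hvn, div_le_div_iff₀ (by positivity) (by norm_num)]
    have h4 : (1 / ((k : ℝ) + 1)) * 2 ≤ ‖u‖ := by linarith
    nlinarith
  have h5 := Real.arccos_le_arccos hratio
  have h6 : Real.arccos (1 / 2) = Real.pi / 3 := by
    rw [← Real.cos_pi_div_three]
    exact Real.arccos_cos (by positivity) (by linarith [Real.pi_pos])
  rw [h6] at h5
  linarith [Real.pi_gt_three]

/-- For every `n ≥ 1` and every `0 < r < 1` there is a family of holomorphic maps from the unit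
polydisk of `ℂ^(n+1)` to `ℙ²(ℂ)` which is equicontinuous on the Hartogs figure `H_n^1(r)` but not
on the polydisk. -/
theorem result : ∀ n : ℕ, 1 ≤ n → ∀ r : ℝ, 0 < r → r < 1 →
    ∃ 𝓕 : Set ((Fin (n + 1) → ℂ) → P2),
      (∀ f ∈ 𝓕, HolomorphicOn f (polydisk (n + 1) 1)) ∧
      EquicontinuousOnSet 𝓕 (hartogs n r) ∧
      ¬ EquicontinuousOnSet 𝓕 (polydisk (n + 1) 1) := by
  intro n hn r hr0 hr1
  let i : Fin n := ⟨0, hn⟩
  refine ⟨range (fam i ((1 - r : ℝ) : ℂ)), ?_, ?_, not_equi i hr0 hr1⟩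
  · rintro _ ⟨k, rfl⟩
    exact holo i _ k _
  · apply equi
    rintro p (⟨h1, _⟩ | ⟨_, h2, _⟩)
    · left
      intro h
      have h3 := h1 i
      rw [h, Complex.norm_real, Real.norm_of_nonneg (by linarith)] at h3
      exact lt_irrefl _ h3
    · right
      intro h
      rw [h, norm_zero] at h2
      linarith

end Pool.Agent.Results.MP_7ec995_an.PlaneBubbling
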